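import Mathlib

namespace Pool.Agent.Results.MP_2f8eff_co.Cube

open SimpleGraph

/-- The interval `[u,v]`: the vertices lying on some shortest `u`-`v` path. -/
def interval {V : Type} (G : SimpleGraph V) (u v : V) : Set V :=
  {w | ∃ p : G.Walk u v, p.IsPath ∧ p.length = G.dist u v ∧ w ∈ p.support}

/-- Median graph: connected, and every triple has exactly one median. -/
def IsMedian {V : Type} (G : SimpleGraph V) : Prop :=
  G.Connected ∧ ∀ u v w : V, ∃! m, m ∈ interval G u v ∩ interval G u w ∩ interval G v w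

/-- `d(a,b,c) = d(a,b) + d(b,c) + d(a,c)`. -/
noncomputable def d3 {V : Type} (G : SimpleGraph V) (a b c : V) : ℕ :=
  G.dist a b + G.dist b c + G.dist a c

/-- A triametral triple: `d(a,b,c)` is the maximum over all triples. -/
def Triametral {V : Type} (G : SimpleGraph V) (a b c : V) : Prop :=
  ∀ x y z : V, d3 G x y z ≤ d3 G a b c

/-- A peripheral vertex: its eccentricity equals the diameter, i.e. some vertex is at the
largest distance occurring in `G` from it. -/
def Peripheral {V : Type} (G : SimpleGraph V) (v : V) : Prop :=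
  ∃ u, ∀ x y : V, G.dist x y ≤ G.dist v u

abbrev W := Fin 3 × Fin 3 × Fin 3

def d1 (a b : Fin 3) : ℕ := (a.1 - b.1) + (b.1 - a.1)
def δ (u v : W) : ℕ := d1 u.1 v.1 + d1 u.2.1 v.2.1 + d1 u.2.2 v.2.2

lemma δ_symm : ∀ u v : W, δ u v = δ v u := by decide +kernel
lemma δ_self : ∀ u : W, δ u u = 0 := by decide +kernel
lemma δ_zero : ∀ u v : W, δ u v = 0 → u = v := by decide +kernel
lemma δ_tri : ∀ u v w : W, δ u w ≤ δ u v + δ v w := by decide +kernel
lemma δ_step : ∀ u v : W, u ≠ v → ∃ w, δ u w = 1 ∧ δ w v + 1 = δ u v := by decide +kernel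

/-- The grid `P₃ □ P₃ □ P₃`. -/
def G : SimpleGraph W where
  Adj u v := δ u v = 1
  symm := ⟨fun u v h => by rw [δ_symm]; exact h⟩
  loopless := ⟨fun u h => by simp [δ_self] at h⟩

lemma le_walk {u v : W} (p : G.Walk u v) : δ u v ≤ p.length := by
  induction p with
  | nil => simp [δ_self]
  | @cons a b c h p ih =>
    have h1 : δ a b = 1 := h
    have := δ_tri a b c
    simp only [Walk.length_cons]
    omega

lemma exists_walk (k : ℕ) : ∀ u v : W, δ u v = k → ∃ p : G.Walk u v, p.length = k := by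
  induction k with
  | zero => intro u v h; obtain rfl := δ_zero u v h; exact ⟨Walk.nil, rfl⟩
  | succ k ih =>
    intro u v h
    have hne : u ≠ v := by rintro rfl; simp [δ_self] at h
    obtain ⟨w, h1, h2⟩ := δ_step u v hne
    obtain ⟨p, hp⟩ := ih w v (by omega)
    exact ⟨Walk.cons (show G.Adj u w from h1) p, by simp [hp]⟩

lemma dist_eq (u v : W) : G.dist u v = δ u v := by
  obtain ⟨p, hp⟩ := exists_walk _ u v rfl
  apply le_antisymm
  · exact hp ▸ dist_le p
  · obtain ⟨q, hq⟩ := (p.reachable).exists_walk_length_eq_dist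
    exact hq ▸ le_walk q

lemma conn : G.Connected where
  preconnected u v := (exists_walk _ u v rfl).elim fun p _ => p.reachable

lemma mem_interval (u v w : W) : w ∈ interval G u v ↔ δ u w + δ w v = δ u v := by
  constructor
  · rintro ⟨p, -, hl, hw⟩
    have h1 := le_walk (p.takeUntil w hw)
    have h2 := le_walk (p.dropUntil w hw)
    have h3 := congrArg Walk.length (p.take_spec hw)
    rw [Walk.length_append] at h3
    have := δ_tri u w v
    rw [dist_eq] at hl
    omega
  · intro h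
    obtain ⟨p, hp⟩ := exists_walk _ u w rfl
    obtain ⟨q, hq⟩ := exists_walk _ w v rfl
    have hl : (p.append q).length = G.dist u v := by
      rw [Walk.length_append, dist_eq]; omega
    exact ⟨p.append q, (p.append q).isPath_of_length_eq_dist hl, hl, by simp⟩

def med1 (a b c : Fin 3) : Fin 3 := max (min a b) (min (max a b) c)
lemma med1_spec : ∀ a b c m : Fin 3,
    (d1 a m + d1 m b = d1 a b ∧ d1 a m + d1 m c = d1 a c ∧ d1 b m + d1 m c = d1 b c) ↔
      m = med1 a b c := by decide +kernel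
lemma d1_tri : ∀ a b c : Fin 3, d1 a c ≤ d1 a b + d1 b c := by decide +kernel

lemma median : IsMedian G := by
  refine ⟨conn, fun u v w => ⟨(med1 u.1 v.1 w.1, med1 u.2.1 v.2.1 w.2.1, med1 u.2.2 v.2.2 w.2.2), ?_, ?_⟩⟩
  · have h1 := (med1_spec u.1 v.1 w.1 _).2 rfl
    have h2 := (med1_spec u.2.1 v.2.1 w.2.1 _).2 rfl
    have h3 := (med1_spec u.2.2 v.2.2 w.2.2 _).2 rfl
    simp only [Set.mem_inter_iff, mem_interval, δ]
    omega
  · rintro m ⟨⟨h1, h2⟩, h3⟩
    rw [mem_interval] at h1 h2 h3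
    unfold δ at h1 h2 h3
    have a1 := d1_tri u.1 m.1 v.1
    have a2 := d1_tri u.1 m.1 w.1
    have a3 := d1_tri v.1 m.1 w.1
    have b1 := d1_tri u.2.1 m.2.1 v.2.1
    have b2 := d1_tri u.2.1 m.2.1 w.2.1
    have b3 := d1_tri v.2.1 m.2.1 w.2.1
    have c1 := d1_tri u.2.2 m.2.2 v.2.2
    have c2 := d1_tri u.2.2 m.2.2 w.2.2
    have c3 := d1_tri v.2.2 m.2.2 w.2.2
    refine Prod.ext ((med1_spec _ _ _ _).1 ?_) (Prod.ext ((med1_spec _ _ _ _).1 ?_)
      ((med1_spec _ _ _ _).1 ?_)) <;> omega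

lemma d1_sum : ∀ a b c : Fin 3, d1 a b + d1 b c + d1 a c ≤ 4 := by decide +kernel

lemma not_per (v : W) (h : ∀ u, δ v u ≤ 5) : ¬ Peripheral G v := by
  rintro ⟨u, hu⟩
  have h1 := hu (0, 0, 0) (2, 2, 2)
  rw [dist_eq, dist_eq] at h1
  have h2 : δ (0, 0, 0) (2, 2, 2) = 6 := by decide +kernel
  have := h u
  omega

theorem result : ∃ (V : Type) (_ : Fintype V) (G : SimpleGraph V) (a b c : V),
    IsMedian G ∧ Triametral G a b c ∧
      ¬ Peripheral G a ∧ ¬ Peripheral G b ∧ ¬ Peripheral G c := by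
  refine ⟨W, inferInstance, G, (0, 0, 1), (1, 2, 0), (2, 1, 2), median, ?_,
    not_per _ (by decide +kernel), not_per _ (by decide +kernel), not_per _ (by decide +kernel)⟩
  intro x y z
  simp only [d3, dist_eq]
  have h : δ (0, 0, 1) (1, 2, 0) + δ (1, 2, 0) (2, 1, 2) + δ (0, 0, 1) (2, 1, 2) = 12 := by
    decide +kernel
  have h1 := d1_sum x.1 y.1 z.1
  have h2 := d1_sum x.2.1 y.2.1 z.2.1
  have h3 := d1_sum x.2.2 y.2.2 z.2.2
  rw [h]
  unfold δ
  omega

end Pool.Agent.Results.MP_2f8eff_co.Cube
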